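import Pool.Agent.H29.LG.Targets

/-!
Board `lgx_modules`, row FRN: the Frobenius substitutions.
-/

set_option autoImplicit false

namespace Pool.Agent.H70.LG

open NumberField Height Finset Polynomial Pool.Agent.H24.RD Pool.Agent.H23.RDD Pool.Agent.H29.RQ
  Pool.Agent.H29.SX Pool.Agent.H29.LG

theorem frn_one (h1 : T_VB) (h5 : T_FRM) (h6 : T_RES) (F Ω : Type) [Field F] [NumberField F]
    [Field Ω] [CharZero Ω] [Algebra F Ω] [IsAlgClosed Ω] [Algebra.IsAlgebraic F Ω] (p v N' : ℕ)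
    (hp : p.Prime) (hpN' : ¬ p ∣ N') (M : IntermediateField F Ω) [NumberField M]
    (hMr : ∀ z : Ω, z ^ (p ^ v * N') = 1 → z ∈ M) (hMn : ∀ (τ : Ω ≃ₐ[F] Ω), ∀ z ∈ M, τ z ∈ M)
    (w : FinitePlace M) (hw : w.1 (p : M) < 1) :
    ∃ ψ : Ω ≃ₐ[F] Ω, (∀ z : Ω, z ^ (p ^ v) = 1 → ψ z = z) ∧
      (∀ z : Ω, z ^ N' = 1 → ψ z = z ^ (p ^ (Module.finrank ℚ F).factorial)) ∧
      ∀ x x' : M, (x' : Ω) = ψ (x : Ω) → w.1 x' = w.1 x ∧
        (w.1 x ≤ 1 → w.1 (x' - x ^ (p ^ (Module.finrank ℚ F).factorial)) < 1) := by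
  have hcl : IsAlgClosure F Ω := ⟨inferInstance, inferInstance⟩
  have hnorm : Normal F Ω := IsAlgClosure.normal F Ω
  have hN' : N' ≠ 0 := fun h => hpN' (h ▸ dvd_zero p)
  obtain ⟨-, -, -, -, hV5, -, -⟩ := h1 M p hp w hw
  -- the primitive root of unity
  have : NeZero ((p ^ v : ℕ) : Ω) := ⟨by exact_mod_cast (pow_pos hp.pos v).ne'⟩
  obtain ⟨ζ0, hζ0⟩ := HasEnoughRootsOfUnity.exists_primitiveRoot Ω (p ^ v)
  have hζM : ζ0 ∈ M := hMr ζ0 (by rw [pow_mul, hζ0.pow_eq_one, one_pow])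
  obtain ⟨ζ, hζe⟩ : ∃ ζ : M, (ζ : Ω) = ζ0 := ⟨⟨ζ0, hζM⟩, rfl⟩
  have hζ : IsPrimitiveRoot ζ (p ^ v) := by
    rw [← hζe] at hζ0
    exact IsPrimitiveRoot.of_map_of_injective (f := algebraMap M Ω) hζ0
      (algebraMap M Ω).injective
  have hMnor : Normal F M := by
    rw [IntermediateField.normal_iff_forall_map_le']
    rintro τ z ⟨y, hy, rfl⟩
    exact hMn τ y hy
  haveI : IsGalois F M := { }
  haveI hC : NumberField (IntermediateField.adjoin F {ζ}) := NumberField.of_intermediateField _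
  haveI : IsGalois (IntermediateField.adjoin F {ζ}) M := inferInstance
  obtain ⟨ψ, hψ1, hψ2⟩ := h5 (IntermediateField.adjoin F {ζ}) M p
    (Module.finrank ℚ F).factorial hp (Nat.factorial_pos _) w hw (by
      intro x hx
      have := h6 F M p v hp w hw ζ hζ (x : M) x.2 hx
      rw [map_sub, map_pow]
      exact this)
  obtain ⟨Φ, hΦ⟩ : ∃ Φ : Ω ≃ₐ[F] Ω, ∀ x : M, Φ (x : Ω) = ((ψ x : M) : Ω) :=
    ⟨(ψ.restrictScalars F).liftNormal Ω, fun x =>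
      AlgEquiv.liftNormal_commutes (ψ.restrictScalars F) Ω x⟩
  refine ⟨Φ, ?_, ?_, ?_⟩
  · intro z hz
    have hzM : z ∈ M := hMr z (by rw [pow_mul, hz, one_pow])
    haveI : NeZero (p ^ v) := ⟨(pow_pos hp.pos v).ne'⟩
    have hz' : (⟨z, hzM⟩ : M) ^ (p ^ v) = 1 := Subtype.ext hz
    obtain ⟨k, -, hk⟩ := hζ.eq_pow_of_pow_eq_one hz'
    have hmem : (⟨z, hzM⟩ : M) ∈ IntermediateField.adjoin F {ζ} := by
      rw [← hk]
      exact pow_mem (IntermediateField.mem_adjoin_simple_self F ζ) k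
    have h2 := ψ.commutes ⟨⟨z, hzM⟩, hmem⟩
    have h3 := hΦ ⟨z, hzM⟩
    calc Φ z = ((ψ ⟨z, hzM⟩ : M) : Ω) := h3
      _ = z := congrArg Subtype.val h2
  · intro z hz
    have hzM : z ∈ M := hMr z (by rw [mul_comm, pow_mul, hz, one_pow])
    obtain ⟨y, hy⟩ : ∃ y : M, (y : Ω) = z := ⟨⟨z, hzM⟩, rfl⟩
    have hyN : y ^ N' = 1 := Subtype.ext (by
      rw [← hy] at hz
      exact hz)
    have hy0 : y ≠ 0 := by
      rintro rfl
      rw [zero_pow hN'] at hyN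
      exact zero_ne_one hyN
    have hwy : w.1 y = 1 := by
      have h2 : (w.1 y) ^ N' = 1 := by rw [← map_pow, hyN, map_one]
      exact (pow_eq_one_iff_of_nonneg (w.1.nonneg _) hN').mp h2
    have h3 := hψ2 y hwy.le
    have hyq : y ^ (p ^ (Module.finrank ℚ F).factorial) ≠ 0 := pow_ne_zero _ hy0
    have key : ψ y = y ^ (p ^ (Module.finrank ℚ F).factorial) := by
      by_contra hc
      have h4 : ψ y / y ^ (p ^ (Module.finrank ℚ F).factorial) ≠ 1 := fun h => hc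
        ((div_eq_one_iff_eq hyq).mp h)
      have h5 : (ψ y / y ^ (p ^ (Module.finrank ℚ F).factorial)) ^ N' = 1 := by
        rw [div_pow, ← map_pow, hyN, map_one, ← pow_mul, mul_comm, pow_mul, hyN, one_pow, div_one]
      have h6 := hV5 _ N' h4 hpN' h5
      have h7 : ψ y / y ^ (p ^ (Module.finrank ℚ F).factorial) - 1 =
          (ψ y - y ^ (p ^ (Module.finrank ℚ F).factorial)) /
            y ^ (p ^ (Module.finrank ℚ F).factorial) := by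
        rw [sub_div, div_self hyq]
      rw [h7, map_div₀, map_pow, hwy, one_pow, div_one] at h6
      rw [h6] at h3
      exact lt_irrefl _ h3
    calc Φ z = Φ (y : Ω) := by rw [hy]
      _ = ((ψ y : M) : Ω) := hΦ y
      _ = ((y ^ (p ^ (Module.finrank ℚ F).factorial) : M) : Ω) := by rw [key]
      _ = z ^ (p ^ (Module.finrank ℚ F).factorial) := by
        rw [← hy]
        rfl
  · intro x x' hx
    have h2 : x' = ψ x := Subtype.ext (hx.trans (hΦ x))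
    rw [h2]
    exact ⟨hψ1 x, hψ2 x⟩

theorem frn_two (F Ω : Type) [Field F] [Field Ω] [Algebra F Ω] {r : ℕ} (γ : Fin r → F)
    (p v N' q : ℕ) (hp : p.Prime) (hpN' : ¬ p ∣ N') (ψ Φ : Ω ≃ₐ[F] Ω)
    (h1 : ∀ z : Ω, z ^ (p ^ v) = 1 → ψ z = z) (h2 : ∀ z : Ω, z ^ N' = 1 → ψ z = z ^ q)
    (h3 : ∀ z : Ω, z ^ (p ^ v) = 1 → Φ z = z) (h4 : ∀ z : Ω, z ^ N' = 1 → Φ z = z ^ q) :
    ∀ z ∈ Lv F Ω γ (p ^ v * N') 1, ψ z = Φ z := by
  have hN' : N' ≠ 0 := fun h => hpN' (h ▸ dvd_zero p)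
  intro z hz
  unfold Lv at hz
  induction hz using IntermediateField.adjoin_induction with
  | mem z hz =>
    rcases hz with hz | ⟨i, hz⟩
    · have hz0 : z ≠ 0 := by
        rintro rfl
        rw [zero_pow (Nat.mul_ne_zero (pow_pos hp.pos v).ne' hN')] at hz
        exact zero_ne_one hz
      have hco : Nat.Coprime (p ^ v) N' := Nat.Coprime.pow_left v ((hp.coprime_iff_not_dvd).mpr hpN')
      have hb := Nat.gcd_eq_gcd_ab (p ^ v) N'
      rw [hco.gcd_eq_one] at hb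
      obtain ⟨a, ha⟩ : ∃ a, a = Nat.gcdA (p ^ v) N' := ⟨_, rfl⟩
      obtain ⟨b, hb'⟩ : ∃ b, b = Nat.gcdB (p ^ v) N' := ⟨_, rfl⟩
      rw [← ha, ← hb'] at hb
      have hz1 : z = (z ^ (((p ^ v : ℕ) : ℤ) * a)) * (z ^ ((N' : ℤ) * b)) := by
        rw [← zpow_add₀ hz0, ← hb]
        simp
      have hz' : z ^ (((p ^ v : ℕ) : ℤ) * (N' : ℤ)) = 1 := by
        rw [← Nat.cast_mul, zpow_natCast]
        exact hz
      have e1 : (z ^ (((p ^ v : ℕ) : ℤ) * a)) ^ N' = 1 := by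
        rw [← zpow_natCast, ← zpow_mul]
        have : ((p ^ v : ℕ) : ℤ) * a * (N' : ℤ) = (((p ^ v : ℕ) : ℤ) * (N' : ℤ)) * a := by ring
        rw [this, zpow_mul, hz', one_zpow]
      have e2 : (z ^ ((N' : ℤ) * b)) ^ (p ^ v) = 1 := by
        rw [← zpow_natCast, ← zpow_mul]
        have : (N' : ℤ) * b * ((p ^ v : ℕ) : ℤ) = (((p ^ v : ℕ) : ℤ) * (N' : ℤ)) * b := by ring
        rw [this, zpow_mul, hz', one_zpow]
      rw [hz1, map_mul, map_mul, h2 _ e1, h4 _ e1, h1 _ e2, h3 _ e2]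
    · rw [pow_one] at hz
      rw [hz, AlgEquiv.commutes, AlgEquiv.commutes]
  | algebraMap x => rw [AlgEquiv.commutes, AlgEquiv.commutes]
  | add x y _ _ hx hy => rw [map_add, map_add, hx, hy]
  | inv x _ hx => rw [map_inv₀, map_inv₀, hx]
  | mul x y _ _ hx hy => rw [map_mul, map_mul, hx, hy]

theorem pf_FRN (h1 : T_VB) (h2 : T_LVB) (h3 : T_FLD) (h4 : T_PFX) (h5 : T_FRM) (h6 : T_RES) :
    T_FRN := by
  intro F Ω _ _ _ _ _ _ _ r γ hγ p N K hp hN hKN E hE hEn δ hδ hRam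
  obtain ⟨v, N', hpN', hNv⟩ : ∃ v N', ¬ p ∣ N' ∧ N = p ^ v * N' := by
    obtain ⟨v, N', hpN', hNv⟩ := Nat.exists_eq_pow_mul_and_not_dvd hN.ne' p hp.ne_one
    exact ⟨v, N', hpN', hNv⟩
  subst hNv
  have hK : 0 < K := Nat.pos_of_dvd_of_pos hKN hN
  obtain ⟨hfd, -, -, -, -, -⟩ := h2 F Ω r γ hγ (p ^ v * N') K hN hK
  obtain ⟨-, -, -, -, -, hmono⟩ := h2 F Ω r γ hγ (p ^ v * N') 1 hN one_pos
  have hKb : Lv F Ω γ (p ^ v * N') 1 ≤ Lv F Ω γ (p ^ v * N') K :=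
    hmono (p ^ v * N') K dvd_rfl (one_dvd _) hKN hN
  obtain ⟨M1, hM1fd, hM1L, -, hM1n⟩ := h3 F Ω (Lv F Ω γ (p ^ v * N') K) hfd ∅
  have hM1 : NumberField M1 := NumberField.of_module_finite F _
  obtain ⟨P, hP, hPs, -⟩ := h4 M1 p hp
  have hPne : P.Nonempty := by
    rw [Finset.nonempty_iff_ne_empty]
    rintro rfl
    rw [Finset.sum_empty] at hPs
    have h7 : 0 < (Module.finrank ℚ M1 : ℝ) := by exact_mod_cast Module.finrank_pos
    have h8 : 0 < Real.log p := Real.log_pos (by exact_mod_cast hp.one_lt)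
    have h9 := mul_pos h7 h8
    rw [← hPs] at h9
    exact lt_irrefl _ h9
  obtain ⟨w1, hw1⟩ := hPne
  rw [hP] at hw1
  have hroot : ∀ M : IntermediateField F Ω, Lv F Ω γ (p ^ v * N') 1 ≤ M →
      ∀ z : Ω, z ^ (p ^ v * N') = 1 → z ∈ M := fun M hM z hz =>
    hM (IntermediateField.subset_adjoin F _ (Or.inl hz))
  obtain ⟨Φ, hΦ1, hΦ2, -⟩ := frn_one h1 h5 h6 F Ω p v N' hp hpN' M1
    (hroot M1 (hKb.trans hM1L)) hM1n w1 hw1
  refine ⟨Φ, ?_⟩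
  intro M _ hEM hKM hMn w hw
  obtain ⟨ψ, hψ1, hψ2, hψ3⟩ := frn_one h1 h5 h6 F Ω p v N' hp hpN' M (hroot M hKM) hMn w hw
  refine ⟨ψ, frn_two F Ω γ p v N' _ hp hpN' ψ Φ hψ1 hψ2 hΦ1 hΦ2, ?_⟩
  intro x x' hx hx'
  obtain ⟨h7, h8⟩ := hψ3 x x' hx'
  refine ⟨h7, fun hx1 => ?_⟩
  refine hRam M hEM w hw _ ?_ (h8 hx1)
  have h9 : (x' : Ω) ∈ E := by
    rw [hx']
    exact hEn ψ _ hx
  have h10 : ((x' - x ^ (p ^ (Module.finrank ℚ F).factorial) : M) : Ω) =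
      (x' : Ω) - (x : Ω) ^ (p ^ (Module.finrank ℚ F).factorial) := rfl
  rw [h10]
  exact sub_mem h9 (pow_mem hx _)

end Pool.Agent.H70.LG
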